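import Mathlib

set_option autoImplicit false

open Polynomial

namespace Pool.Agent.Results.MP_141d57_co.ToricContribution

/-- The Catalan number `C_m = binom(2m, m) / (m + 1)` as a real number. -/
noncomputable def cat (m : ℕ) : ℝ := ((2 * m).choose m : ℝ) / (m + 1)

/-- The toric `g`-contribution polynomial `g_{n,j}(x)`. -/
noncomputable def g (n j : ℕ) : ℝ[X] :=
  ∑ k ∈ Finset.range (min (n / 2) (n - j) + 1),
    C (cat (n - k - j) * ((n - k).choose k : ℝ)) * (X - 1) ^ k

/-- A real polynomial is real-rooted: it is nonzero and all its complex roots are real. -/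
def RealRooted (p : ℝ[X]) : Prop := p ≠ 0 ∧ ∀ z : ℂ, aeval z p = 0 → z.im = 0

/-! ### Good polynomials -/

/-- degree at most `D`, nonzero at `0`, and all complex roots real and nonpositive -/
structure Good (D : ℕ) (f : ℝ[X]) : Prop where
  deg : f.natDegree ≤ D
  zero : f.eval 0 ≠ 0
  im : ∀ z : ℂ, aeval z f = 0 → z.im = 0
  re : ∀ z : ℂ, aeval z f = 0 → z.re ≤ 0

/-- the operator `a - X d/dX` -/
noncomputable def T (a : ℝ) (f : ℝ[X]) : ℝ[X] := C a * f - X * derivative f

lemma coeff_T (a : ℝ) (f : ℝ[X]) (k : ℕ) : (T a f).coeff k = (a - k) * f.coeff k := by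
  unfold T
  rw [coeff_sub, coeff_C_mul]
  cases k with
  | zero => simp
  | succ k =>
    rw [coeff_X_mul, coeff_derivative]
    push_cast
    ring

lemma aeval_T (a : ℝ) (f : ℝ[X]) (z : ℂ) :
    aeval z (T a f) = a * aeval z f - z * aeval z (derivative f) := by
  unfold T
  simp

lemma good_T {D : ℕ} {a : ℝ} (ha : (D : ℝ) ≤ a) (ha0 : 0 < a) {f : ℝ[X]} (hf : Good D f) :
    Good D (T a f) := by
  have hne : f ≠ 0 := by
    rintro rfl
    exact hf.zero (by simp)
  set F : ℂ[X] := f.map (algebraMap ℝ ℂ) with hF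
  have hFne : F ≠ 0 := by
    rw [hF, Ne, Polynomial.map_eq_zero]
    exact hne
  have hev : ∀ z : ℂ, F.eval z = aeval z f := fun z => by
    rw [hF, eval_map_algebraMap]
  have hev' : ∀ z : ℂ, F.derivative.eval z = aeval z (derivative f) := fun z => by
    rw [hF, derivative_map, eval_map_algebraMap]
  have hroot : ∀ ρ ∈ F.roots, ρ.im = 0 ∧ ρ.re < 0 := by
    intro ρ hρ
    rw [mem_roots hFne, IsRoot.def, hev] at hρ
    have h1 := hf.im ρ hρ
    have h2 := hf.re ρ hρ
    refine ⟨h1, lt_of_le_of_ne h2 ?_⟩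
    intro h3
    apply hf.zero
    have : ρ = 0 := Complex.ext h3 h1
    rw [this] at hρ
    have h4 : aeval (0 : ℂ) f = ((f.eval 0 : ℝ) : ℂ) := by
      have := aeval_algebraMap_apply ℂ (0 : ℝ) f
      rw [map_zero] at this
      rw [this]
      rfl
    rw [h4] at hρ
    exact_mod_cast hρ
  have hcard : (Multiset.card F.roots : ℝ) ≤ a := by
    refine le_trans ?_ ha
    have h1 := F.card_roots'
    have h2 : F.natDegree ≤ D := by
      rw [hF, natDegree_map]
      exact hf.deg
    exact_mod_cast le_trans h1 h2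
  -- the key computation at a root of `T a f` that is not a root of `f`
  have key : ∀ z : ℂ, aeval z (T a f) = 0 → aeval z f ≠ 0 →
      (F.roots.map fun ρ => z / (z - ρ)).sum = a := by
    intro z hz hzf
    rw [aeval_T] at hz
    have h1 := (IsAlgClosed.splits F).eval_derivative_div_eval_of_ne_zero (x := z)
      (by rw [hev]; exact hzf)
    have h2 : (F.roots.map fun ρ => z / (z - ρ)).sum = z * (F.roots.map fun ρ => 1 / (z - ρ)).sum := by
      rw [← Multiset.sum_map_mul_left]
      congr 1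
      apply Multiset.map_congr rfl
      intro ρ _
      ring
    rw [h2, ← h1, hev, hev']
    field_simp
    linear_combination -hz
  have hz0 : ∀ z : ℂ, ∀ ρ ∈ F.roots, (z / (z - ρ)).im = -ρ.re * z.im / Complex.normSq (z - ρ) := by
    intro z ρ hρ
    rw [Complex.div_im]
    simp only [Complex.sub_re, Complex.sub_im, (hroot ρ hρ).1]
    ring
  have him : ∀ z : ℂ, aeval z (T a f) = 0 → z.im = 0 := by
    intro z hz
    by_cases hzf : aeval z f = 0
    · exact hf.im z hzf
    have h := key z hz hzf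
    by_contra him
    have h1 : ((F.roots.map fun ρ => z / (z - ρ)).sum).im = 0 := by
      rw [h]; simp
    have h2 : ((F.roots.map fun ρ => z / (z - ρ)).sum).im =
        z.im * (F.roots.map fun ρ => -ρ.re / Complex.normSq (z - ρ)).sum := by
      rw [← Multiset.sum_map_mul_left]
      have h3 : ((F.roots.map fun ρ => z / (z - ρ)).sum).im =
          (F.roots.map fun ρ => (z / (z - ρ)).im).sum := by
        have := map_multiset_sum Complex.imAddGroupHom (F.roots.map fun ρ => z / (z - ρ))
        rw [Multiset.map_map] at this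
        exact this
      rw [h3]
      congr 1
      apply Multiset.map_congr rfl
      intro ρ hρ
      rw [hz0 z ρ hρ]
      ring
    rw [h2] at h1
    have h3 : (F.roots.map fun ρ => -ρ.re / Complex.normSq (z - ρ)).sum = 0 := by
      rcases mul_eq_zero.mp h1 with h | h
      · exact absurd h him
      · exact h
    have h4 : F.roots = 0 := by
      by_contra hne0
      obtain ⟨ρ, hρ⟩ := Multiset.exists_mem_of_ne_zero hne0
      have hposσ : ∀ σ ∈ F.roots, 0 < -σ.re / Complex.normSq (z - σ) := by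
        intro σ hσ
        have hs := (hroot σ hσ)
        apply div_pos (by linarith [hs.2])
        rw [Complex.normSq_pos]
        intro h0
        apply him
        have := congrArg Complex.im h0
        simp only [Complex.sub_im, Complex.zero_im, hs.1, sub_zero] at this
        exact this
      have hpos : (F.roots.map fun _ => (0 : ℝ)).sum <
          (F.roots.map fun ρ => -ρ.re / Complex.normSq (z - ρ)).sum :=
        Multiset.sum_lt_sum (fun i hi => (hposσ i hi).le) ⟨ρ, hρ, hposσ ρ hρ⟩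
      rw [Multiset.map_const', Multiset.sum_replicate, smul_zero] at hpos
      linarith
    rw [h4] at h
    simp only [Multiset.map_zero, Multiset.sum_zero] at h
    have : (a : ℂ) ≠ 0 := by exact_mod_cast ha0.ne'
    exact this h.symm
  refine ⟨?_, ?_, him, ?_⟩
  · rw [natDegree_le_iff_coeff_eq_zero]
    intro N hN
    rw [coeff_T, coeff_eq_zero_of_natDegree_lt (lt_of_le_of_lt hf.deg hN), mul_zero]
  · have h1 : (T a f).eval 0 = a * f.eval 0 := by
      unfold T; simp
    rw [h1]
    exact mul_ne_zero ha0.ne' hf.zero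
  · intro z hz
    by_cases hzf : aeval z f = 0
    · exact hf.re z hzf
    by_contra hre
    push Not at hre
    have h := key z hz hzf
    have hzim := him z hz
    have h3 : ((F.roots.map fun ρ => z / (z - ρ)).sum).re =
        (F.roots.map fun ρ => (z / (z - ρ)).re).sum := by
      have := map_multiset_sum Complex.reAddGroupHom (F.roots.map fun ρ => z / (z - ρ))
      rw [Multiset.map_map] at this
      exact this
    have h5 : ∀ ρ ∈ F.roots, (z / (z - ρ)).re < 1 := by
      intro ρ hρ
      have hr := hroot ρ hρ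
      have hz' : z = (z.re : ℂ) := Complex.ext (by simp) (by simp [hzim])
      have hρ' : ρ = (ρ.re : ℂ) := Complex.ext (by simp) (by simp [hr.1])
      rw [hz', hρ', ← Complex.ofReal_sub, ← Complex.ofReal_div, Complex.ofReal_re]
      rw [div_lt_one (by linarith [hr.2])]
      linarith [hr.2]
    have h6 : a = (F.roots.map fun ρ => (z / (z - ρ)).re).sum := by
      rw [← h3, h]; simp
    by_cases h0 : F.roots = 0
    · rw [h0] at h6
      simp at h6
      linarith
    · have h7 : (F.roots.map fun ρ => (z / (z - ρ)).re).sum <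
          (F.roots.map fun _ => (1 : ℝ)).sum := by
        obtain ⟨ρ, hρ⟩ := Multiset.exists_mem_of_ne_zero h0
        exact Multiset.sum_lt_sum (fun i hi => (h5 i hi).le) ⟨ρ, hρ, h5 ρ hρ⟩
      rw [Multiset.map_const', Multiset.sum_replicate, nsmul_eq_mul, mul_one] at h7
      linarith

/-! ### Products of operators -/

/-- apply `T (s 0)`, then `T (s 1)`, ..., then `T (s (L - 1))` -/
noncomputable def ops (s : ℕ → ℝ) : ℕ → ℝ[X] → ℝ[X]
  | 0, f => f
  | L + 1, f => T (s L) (ops s L f)

lemma coeff_ops (s : ℕ → ℝ) (L : ℕ) (f : ℝ[X]) (k : ℕ) :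
    (ops s L f).coeff k = (∏ l ∈ Finset.range L, (s l - k)) * f.coeff k := by
  induction L with
  | zero => simp [ops]
  | succ L ih =>
    rw [ops, coeff_T, ih, Finset.prod_range_succ]
    ring

lemma good_ops {D : ℕ} (s : ℕ → ℝ) (L : ℕ) (hs : ∀ l < L, (D : ℝ) ≤ s l ∧ 0 < s l) {f : ℝ[X]}
    (hf : Good D f) : Good D (ops s L f) := by
  induction L with
  | zero => exact hf
  | succ L ih =>
    exact good_T (hs L (Nat.lt_succ_self L)).1 (hs L (Nat.lt_succ_self L)).2
      (ih fun l hl => hs l (Nat.lt_succ_of_lt hl))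

lemma good_base (D : ℕ) : Good D ((1 + X) ^ D) where
  deg := by
    have h : (1 + X : ℝ[X]).natDegree ≤ 1 := by
      compute_degree
    have := natDegree_pow_le_of_le D h
    simpa using this
  zero := by simp
  im := by
    intro z hz
    simp only [map_pow, map_add, map_one, aeval_X] at hz
    have h0 : (1 + z) = 0 := by
      by_contra hne
      exact pow_ne_zero D hne hz
    have : z = -1 := by linear_combination h0
    rw [this]; simp
  re := by
    intro z hz
    simp only [map_pow, map_add, map_one, aeval_X] at hz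
    have h0 : (1 + z) = 0 := by
      by_contra hne
      exact pow_ne_zero D hne hz
    have : z = -1 := by linear_combination h0
    rw [this]; simp

/-! ### The coefficients -/

/-- `W L x = ∏_{l < L} (x + l + 1/2)` -/
noncomputable def W (L : ℕ) (x : ℝ) : ℝ := ∏ l ∈ Finset.range L, (x + l + 1 / 2)

lemma W_nat (L x : ℕ) :
    W L x * (4 ^ L * ((2 * x).factorial : ℝ) * ((x + L).factorial : ℝ)) =
      ((2 * (x + L)).factorial : ℝ) * (x.factorial : ℝ) := by
  induction L with
  | zero => simp [W]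
  | succ L ih =>
    have h1 : W (L + 1) x = W L x * (x + L + 1 / 2) := by
      unfold W
      rw [Finset.prod_range_succ]
    have h2 : ((2 * (x + (L + 1))).factorial : ℝ) =
        (2 * (x + L) + 2) * (2 * (x + L) + 1) * ((2 * (x + L)).factorial : ℝ) := by
      have : 2 * (x + (L + 1)) = (2 * (x + L) + 1) + 1 := by ring
      rw [this, Nat.factorial_succ, Nat.factorial_succ]
      push_cast
      ring
    have h3 : ((x + (L + 1)).factorial : ℝ) = (x + L + 1) * ((x + L).factorial : ℝ) := by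
      rw [← add_assoc, Nat.factorial_succ]
      push_cast
      ring
    rw [h1, h2, h3, pow_succ]
    linear_combination (4 * (x + L + 1 / 2) * (x + L + 1)) * ih

/-- the coefficient of `y ^ k` in `g_{n,j}(1 + y)` -/
noncomputable def cf (n j k : ℕ) : ℝ := cat (n - k - j) * ((n - k).choose k : ℝ)

lemma cat_eq (m : ℕ) : cat m = ((2 * m).factorial : ℝ) / (m.factorial * (m + 1).factorial) := by
  unfold cat
  have h : ((2 * m).choose m : ℝ) * (m.factorial * m.factorial) = ((2 * m).factorial : ℝ) := by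
    have := Nat.choose_mul_factorial_mul_factorial (n := 2 * m) (k := m) (by omega)
    have h2 : 2 * m - m = m := by omega
    rw [h2, mul_assoc] at this
    exact_mod_cast this
  rw [Nat.factorial_succ, ← h]
  push_cast
  have : (m.factorial : ℝ) ≠ 0 := by exact_mod_cast m.factorial_ne_zero
  field_simp

lemma choose_eq {a b c : ℕ} (h : a = b + c) :
    ((a.choose b : ℕ) : ℝ) = (a.factorial : ℝ) / (b.factorial * c.factorial) := by
  have h1 := Nat.choose_mul_factorial_mul_factorial (n := a) (k := b) (by omega)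
  have h2 : a - b = c := by omega
  rw [h2] at h1
  have hb : (b.factorial : ℝ) ≠ 0 := by exact_mod_cast b.factorial_ne_zero
  have hc : (c.factorial : ℝ) ≠ 0 := by exact_mod_cast c.factorial_ne_zero
  rw [eq_div_iff (mul_ne_zero hb hc)]
  rw [← mul_assoc]
  exact_mod_cast h1

/-- the product formula for the coefficients; `n = 2 D + e` with `e ∈ {0, 1}` -/
lemma cf_formula {n D e j k : ℕ} (hn : n = 2 * D + e) (he : e ≤ 1) (hj : j ≤ D) (hk : k ≤ D) :
    cf n j k = ((1 + e) * 4 ^ (D - j) / D.factorial) * (D.choose k : ℝ) *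
      W (D - j) ((D + e : ℕ) - k) *
      (((n - k).factorial : ℝ) / ((n - k - j + 1).factorial : ℝ)) := by
  obtain ⟨h, rfl⟩ : ∃ h, D = h + k := ⟨D - k, by omega⟩
  obtain ⟨L, hL⟩ : ∃ L, h + k = L + j := ⟨h + k - j, by omega⟩
  have hLj : h + k - j = L := by omega
  have hm : n - k - j = (h + e) + L := by omega
  have hnk : n - k = k + (2 * h + e) := by omega
  unfold cf
  rw [hLj, hm, cat_eq, choose_eq hnk, choose_eq (show h + k = k + h by ring)]
  have hx : (((h + k + e : ℕ) : ℝ) - k) = ((h + e : ℕ) : ℝ) := by push_cast; ring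
  rw [hx]
  have hW := W_nat L (h + e)
  have f1 : (((h + e) + L).factorial : ℝ) ≠ 0 := by exact_mod_cast Nat.factorial_ne_zero _
  have f2 : (((h + e) + L + 1).factorial : ℝ) ≠ 0 := by exact_mod_cast Nat.factorial_ne_zero _
  have f3 : ((k).factorial : ℝ) ≠ 0 := by exact_mod_cast Nat.factorial_ne_zero _
  have f4 : ((h).factorial : ℝ) ≠ 0 := by exact_mod_cast Nat.factorial_ne_zero _
  have f5 : ((h + k).factorial : ℝ) ≠ 0 := by exact_mod_cast Nat.factorial_ne_zero _
  have f6 : ((2 * h + e).factorial : ℝ) ≠ 0 := by exact_mod_cast Nat.factorial_ne_zero _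
  have f7 : ((2 * (h + e)).factorial : ℝ) ≠ 0 := by exact_mod_cast Nat.factorial_ne_zero _
  have hW' : W L ((h + e : ℕ) : ℝ) = ((2 * ((h + e) + L)).factorial : ℝ) * ((h + e).factorial : ℝ) /
      (4 ^ L * ((2 * (h + e)).factorial : ℝ) * (((h + e) + L).factorial : ℝ)) := by
    rw [eq_div_iff (by positivity)]
    exact hW
  rw [hW']
  have key : (1 + (e : ℝ)) * ((h + e).factorial : ℝ) * ((2 * h + e).factorial : ℝ) =
      (h.factorial : ℝ) * ((2 * (h + e)).factorial : ℝ) := by
    interval_cases e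
    · simp
    · have e1 : 2 * (h + 1) = (2 * h + 1) + 1 := by ring
      rw [e1, Nat.factorial_succ (2 * h + 1), Nat.factorial_succ h]
      push_cast
      ring
  field_simp
  linear_combination (-1 : ℝ) * key

/-- `g_{n,j}` as a polynomial in `y = x - 1` -/
noncomputable def G (n j : ℕ) : ℝ[X] := ∑ k ∈ Finset.range (n / 2 + 1), C (cf n j k) * X ^ k

lemma g_eq {n j : ℕ} (hj : j ≤ n / 2) : g n j = (G n j).comp (X - 1) := by
  unfold g G
  have h : min (n / 2) (n - j) = n / 2 := by omega
  rw [h, Polynomial.sum_comp]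
  apply Finset.sum_congr rfl
  intro k _
  simp [cf]

lemma coeff_G (n j k : ℕ) : (G n j).coeff k = if k ≤ n / 2 then cf n j k else 0 := by
  unfold G
  rw [finsetSum_coeff]
  simp only [coeff_C_mul, coeff_X_pow, mul_ite, mul_one, mul_zero]
  rw [Finset.sum_ite_eq]
  simp

lemma cf_pos {n j k : ℕ} (hk : k ≤ n / 2) : 0 < cf n j k := by
  unfold cf cat
  have h1 : 0 < (2 * (n - k - j)).choose (n - k - j) := Nat.choose_pos (by omega)
  have h2 : 0 < (n - k).choose k := Nat.choose_pos (by omega)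
  have h1' : (0 : ℝ) < ((2 * (n - k - j)).choose (n - k - j) : ℝ) := by exact_mod_cast h1
  have h2' : (0 : ℝ) < ((n - k).choose k : ℝ) := by exact_mod_cast h2
  positivity

lemma G_eval_zero_pos (n j : ℕ) : 0 < (G n j).eval 0 := by
  have h : (G n j).eval 0 = (G n j).coeff 0 := (coeff_zero_eq_eval_zero _).symm
  rw [h, coeff_G, if_pos (Nat.zero_le _)]
  exact cf_pos (Nat.zero_le _)

/-- it suffices to study the roots of `G n j` -/
lemma realRooted_of_G {n j : ℕ} (hj : j ≤ n / 2) (h : ∀ z : ℂ, aeval z (G n j) = 0 → z.im = 0) :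
    RealRooted (g n j) := by
  rw [g_eq hj]
  constructor
  · intro h0
    have h1 : ((G n j).comp (X - 1)).eval 1 = 0 := by rw [h0]; simp
    rw [eval_comp] at h1
    simp only [eval_sub, eval_X, eval_one, sub_self] at h1
    exact (G_eval_zero_pos n j).ne' h1
  · intro z hz
    rw [aeval_comp] at hz
    have := h _ hz
    simp only [map_sub, aeval_X, map_one, Complex.sub_im, Complex.one_im, sub_zero] at this
    exact this

/-! ### The case `j ≥ 1` -/

lemma roots_G_pos {n j : ℕ} (hj1 : 1 ≤ j) (hj : j ≤ n / 2) :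
    ∀ z : ℂ, aeval z (G n j) = 0 → z.im = 0 := by
  obtain ⟨D, e, he, hn⟩ : ∃ D e, e ≤ 1 ∧ n = 2 * D + e := ⟨n / 2, n % 2, by omega, by omega⟩
  have hD : n / 2 = D := by omega
  have hjD : j ≤ D := by omega
  set K : ℝ := (1 + e) * 4 ^ (D - j) / D.factorial with hK
  have hKpos : 0 < K := by positivity
  set P : ℝ[X] := ops (fun r => (n : ℝ) - r) (j - 1)
    (ops (fun l => (D + e : ℕ) + (l : ℝ) + 1 / 2) (D - j) ((1 + X) ^ D)) with hP
  have hgood : Good D P := by
    apply good_ops
    · intro l hl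
      have h1 : (l : ℝ) + 1 ≤ (j : ℝ) - 1 := by
        have : l + 1 + 1 ≤ j := by omega
        have : ((l + 1 + 1 : ℕ) : ℝ) ≤ j := by exact_mod_cast this
        push_cast at this; linarith
      have h2 : (n : ℝ) = 2 * D + e := by exact_mod_cast hn
      have h3 : (j : ℝ) ≤ D := by exact_mod_cast hjD
      have h4 : (0 : ℝ) ≤ e := by positivity
      constructor
      · show (D : ℝ) ≤ (n : ℝ) - l
        rw [h2]; linarith
      · show 0 < (n : ℝ) - l
        rw [h2]
        have : (0 : ℝ) ≤ D := by positivity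
        linarith
    · apply good_ops
      · intro l _
        constructor
        · push_cast
          have : (0 : ℝ) ≤ e := by positivity
          have : (0 : ℝ) ≤ l := by positivity
          linarith
        · positivity
      · exact good_base D
  have hGP : G n j = C K * P := by
    ext k
    rw [coeff_G, coeff_C_mul, hP, coeff_ops, coeff_ops, coeff_one_add_X_pow, hD]
    by_cases hk : k ≤ D
    · rw [if_pos hk, cf_formula hn he hjD hk, ← hK]
      have h1 : W (D - j) (((D + e : ℕ) : ℝ) - k) =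
          ∏ l ∈ Finset.range (D - j), (((D + e : ℕ) : ℝ) + (l : ℝ) + 1 / 2 - k) := by
        unfold W
        apply Finset.prod_congr rfl
        intro l _
        ring
      have h2 : ((n - k).factorial : ℝ) / ((n - k - j + 1).factorial : ℝ) =
          ∏ r ∈ Finset.range (j - 1), ((n : ℝ) - r - k) := by
        have h3 : n - k - j + 1 = (n - k) - (j - 1) := by omega
        have h4 := Nat.factorial_mul_descFactorial (n := n - k) (k := j - 1) (by omega)
        have h5 : (((n - k).descFactorial (j - 1) : ℕ) : ℝ) =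
            ∏ r ∈ Finset.range (j - 1), ((n : ℝ) - r - k) := by
          rw [Nat.descFactorial_eq_prod_range, Nat.cast_prod]
          apply Finset.prod_congr rfl
          intro r hr
          rw [Finset.mem_range] at hr
          rw [Nat.cast_sub (by omega), Nat.cast_sub (by omega)]
          ring
        rw [← h5, h3, ← h4]
        have : (((n - k - (j - 1)).factorial : ℕ) : ℝ) ≠ 0 := by
          exact_mod_cast Nat.factorial_ne_zero _
        push_cast
        field_simp
      rw [h1, h2]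
      ring
    · rw [if_neg hk, Nat.choose_eq_zero_of_lt (by omega)]
      simp
  intro z hz
  rw [hGP] at hz
  simp only [map_mul, aeval_C, mul_eq_zero] at hz
  rcases hz with hz | hz
  · exfalso
    have : (algebraMap ℝ ℂ) K ≠ 0 := by
      rw [Ne, map_eq_zero]
      exact hKpos.ne'
    exact this hz
  · exact hgood.im z hz


/-! ### The case `j = 0` : integrals of polynomials over `[0, 1]` -/

/-- the integral of a polynomial over `[0, 1]` -/
noncomputable def I (p : ℝ[X]) : ℝ := ∫ t in (0 : ℝ)..1, p.eval t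

lemma intble (p : ℝ[X]) : IntervalIntegrable (fun t => p.eval t) MeasureTheory.volume 0 1 :=
  p.continuous.intervalIntegrable 0 1

lemma I_add (p q : ℝ[X]) : I (p + q) = I p + I q := by
  unfold I
  simp only [eval_add]
  exact intervalIntegral.integral_add (intble p) (intble q)

lemma I_C_mul (c : ℝ) (p : ℝ[X]) : I (C c * p) = c * I p := by
  unfold I
  simp only [eval_mul, eval_C]
  exact intervalIntegral.integral_const_mul _ _

lemma I_X_pow (m : ℕ) : I (X ^ m) = 1 / ((m : ℝ) + 1) := by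
  unfold I
  simp only [eval_pow, eval_X]
  rw [integral_pow]
  simp

lemma I_zero : I 0 = 0 := by
  unfold I
  simp

lemma I_sum {ι : Type*} (s : Finset ι) (f : ι → ℝ[X]) : I (∑ i ∈ s, f i) = ∑ i ∈ s, I (f i) := by
  classical
  induction s using Finset.induction_on with
  | empty => simp [I_zero]
  | insert a s ha ih => rw [Finset.sum_insert ha, Finset.sum_insert ha, I_add, ih]

lemma I_pos {p : ℝ[X]} (h : ∀ t ∈ Set.Ioo (0 : ℝ) 1, 0 < p.eval t) : 0 < I p :=
  intervalIntegral.intervalIntegral_pos_of_pos_on (intble p) h one_pos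

lemma I_nonneg {p : ℝ[X]} (h : ∀ t ∈ Set.Ioo (0 : ℝ) 1, 0 ≤ p.eval t) : 0 ≤ I p := by
  refine le_of_forall_pos_le_add fun ε hε => ?_
  have h1 : I (p + C ε) = I p + ε := by
    rw [I_add]
    have : C ε = C ε * X ^ 0 := by simp
    rw [this, I_C_mul, I_X_pow]
    simp
  rw [← h1]
  apply le_of_lt
  apply I_pos
  intro t ht
  simp only [eval_add, eval_C]
  have := h t ht
  linarith

/-! ### Alternating sums -/

lemma alt_sum_zero {D : ℕ} {p : ℝ[X]} (hp : p.natDegree < D) :
    ∑ k ∈ Finset.range (D + 1), (-1 : ℝ) ^ k * (D.choose k : ℝ) * p.eval (k : ℝ) = 0 := by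
  have h1 := Polynomial.fwdDiff_iter_eq_zero_of_degree_lt hp
  have h2 := fwdDiff_iter_eq_sum_shift (1 : ℝ) (fun x => p.eval x) D 0
  have h3 : (fwdDiff (1 : ℝ))^[D] (fun x => p.eval x) 0 = 0 := by
    have := congrFun h1 0
    exact this
  rw [h3] at h2
  have h4 : ∑ k ∈ Finset.range (D + 1), (-1 : ℝ) ^ k * (D.choose k : ℝ) * p.eval (k : ℝ) =
      (-1) ^ D * ∑ k ∈ Finset.range (D + 1),
        ((-1 : ℤ) ^ (D - k) * (D.choose k : ℤ)) • p.eval (0 + k • (1 : ℝ)) := by
    rw [Finset.mul_sum]
    apply Finset.sum_congr rfl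
    intro k hk
    rw [Finset.mem_range] at hk
    have e1 : (-1 : ℝ) ^ k = (-1) ^ D * (-1) ^ (D - k) := by
      rw [← pow_add]
      have : D + (D - k) = k + 2 * (D - k) := by omega
      rw [this, pow_add, pow_mul]
      simp
    rw [e1, zsmul_eq_mul]
    push_cast
    simp only [zero_add, nsmul_eq_mul, mul_one]
    ring
  rw [h4, ← h2, mul_zero]

lemma alt_sum_div {D : ℕ} {p : ℝ[X]} (hD : 0 < D) (hp : p.natDegree ≤ D) {r : ℝ}
    (hr : ∀ k ∈ Finset.range (D + 1), r - (k : ℝ) ≠ 0) :
    ∑ k ∈ Finset.range (D + 1), (-1 : ℝ) ^ k * (D.choose k : ℝ) * (p.eval (k : ℝ) / (r - k)) =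
      p.eval r * ∑ k ∈ Finset.range (D + 1), (-1 : ℝ) ^ k * (D.choose k : ℝ) * (1 / (r - k)) := by
  set p1 := p /ₘ (X - C r) with hp1
  have h1 := modByMonic_add_div p (X - C r)
  rw [modByMonic_X_sub_C_eq_C_eval, ← hp1] at h1
  have h2 : p1.natDegree < D := by
    rw [hp1, natDegree_divByMonic _ (monic_X_sub_C r), natDegree_X_sub_C]
    omega
  have h3 := alt_sum_zero h2
  have h4 : ∀ k ∈ Finset.range (D + 1), p.eval (k : ℝ) / (r - k) =
      -p1.eval (k : ℝ) + p.eval r * (1 / (r - k)) := by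
    intro k hk
    have h5 : p.eval (k : ℝ) = p.eval r + ((k : ℝ) - r) * p1.eval (k : ℝ) := by
      have := congrArg (fun q => q.eval (k : ℝ)) h1
      simp only [eval_add, eval_C, eval_mul, eval_sub, eval_X] at this
      exact this.symm
    rw [h5]
    have := hr k hk
    field_simp
    ring
  rw [Finset.mul_sum]
  have h5 : ∑ k ∈ Finset.range (D + 1), (-1 : ℝ) ^ k * (D.choose k : ℝ) * (p.eval (k : ℝ) / (r - k)) =
      ∑ k ∈ Finset.range (D + 1), (-((-1 : ℝ) ^ k * (D.choose k : ℝ) * p1.eval (k : ℝ)) +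
        p.eval r * ((-1 : ℝ) ^ k * (D.choose k : ℝ) * (1 / (r - k)))) := by
    apply Finset.sum_congr rfl
    intro k hk
    rw [h4 k hk]
    ring
  rw [h5, Finset.sum_add_distrib, Finset.sum_neg_distrib, h3]
  simp

lemma beta_eq {n D : ℕ} (hn : D ≤ n) :
    ∑ k ∈ Finset.range (D + 1), (-1 : ℝ) ^ k * (D.choose k : ℝ) * (1 / (((n : ℝ) + 1) - k)) =
      (-1) ^ D * I (X ^ (n - D) * (1 - X) ^ D) := by
  have h1 : (X ^ (n - D) * (1 - X) ^ D : ℝ[X]) =
      ∑ m ∈ Finset.range (D + 1), C ((-1 : ℝ) ^ m * (D.choose m : ℝ)) * X ^ (n - D + m) := by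
    have : (1 - X : ℝ[X]) = (-X) + 1 := by ring
    rw [this, add_pow, Finset.mul_sum]
    apply Finset.sum_congr rfl
    intro m _
    rw [pow_add]
    simp only [one_pow, mul_one, map_mul, map_pow, map_neg, map_one, map_natCast]
    rw [neg_pow]
    ring
  rw [h1, I_sum, ← Finset.sum_range_reflect, Finset.mul_sum]
  apply Finset.sum_congr rfl
  intro m hm
  rw [Finset.mem_range] at hm
  have e0 : D + 1 - 1 - m = D - m := by omega
  rw [e0, I_C_mul, I_X_pow, Nat.choose_symm (by omega : m ≤ D)]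
  have e1 : (-1 : ℝ) ^ (D - m) = (-1) ^ D * (-1) ^ m := by
    rw [← pow_add]
    have : D + m = D - m + 2 * m := by omega
    rw [this, pow_add, pow_mul]
    simp
  rw [e1, Nat.cast_sub (by omega : m ≤ D)]
  have e2 : ((n - D + m : ℕ) : ℝ) = (n : ℝ) - D + m := by
    rw [Nat.cast_add, Nat.cast_sub hn]
  rw [e2]
  have e3 : ((n : ℝ) + 1 - ((D : ℝ) - m)) = ((n : ℝ) - D + m + 1) := by ring
  rw [e3]
  ring

lemma I_beta_pos (a D : ℕ) : 0 < I (X ^ a * (1 - X) ^ D) := by
  apply I_pos
  intro t ht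
  simp only [eval_mul, eval_pow, eval_X, eval_sub, eval_one]
  have h1 := ht.1
  have h2 : 0 < 1 - t := by linarith [ht.2]
  positivity

/-! ### The polynomial `A` -/

/-- `A(w) = w ^ D G(-1 / w)` -/
noncomputable def A (n D : ℕ) : ℝ[X] :=
  ∑ k ∈ Finset.range (D + 1), C ((-1) ^ k * cf n 0 k) * X ^ (D - k)

/-- the linear functional `q ↦ ∫ t ^ {2 e} A(t ^ 2) q(t ^ 2) dt` -/
noncomputable def L (n D e : ℕ) (q : ℝ[X]) : ℝ := I (X ^ (2 * e) * (A n D * q).comp (X ^ 2))

/-- the remaining factor of `W` -/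
noncomputable def Wt (D : ℕ) : ℝ := ∏ l ∈ Finset.range D, ((D : ℝ) - l + 1 / 2)

lemma Wt_pos (D : ℕ) : 0 < Wt D := by
  apply Finset.prod_pos
  intro l hl
  rw [Finset.mem_range] at hl
  have : (l : ℝ) < D := by exact_mod_cast hl
  linarith

/-- the positive constant -/
noncomputable def kap (n D e : ℕ) : ℝ :=
  ((1 + e) * 4 ^ D / D.factorial) * I (X ^ (n - D) * (1 - X) ^ D) * Wt D

lemma kap_pos (n D e : ℕ) : 0 < kap n D e := by
  unfold kap
  have := I_beta_pos (n - D) D
  have := Wt_pos D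
  positivity

/-- the polynomial `∏_{l ≠ i} (D + e - k + l + 1/2)` in `k` -/
noncomputable def Qi (D e i : ℕ) : ℝ[X] :=
  ∏ l ∈ (Finset.range D).erase i, (C ((D : ℝ) + e + l + 1 / 2) - X)

lemma natDegree_Qi {D e i : ℕ} : (Qi D e i).natDegree ≤ D := by
  unfold Qi
  refine (natDegree_prod_le _ _).trans ?_
  refine (Finset.sum_le_card_nsmul _ _ 1 ?_).trans ?_
  · intro l _
    compute_degree
  · rw [smul_eq_mul, mul_one]
    refine (Finset.card_erase_le).trans ?_
    rw [Finset.card_range]

lemma W_eq_Qi {D e i k : ℕ} (hi : i < D) :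
    W D (((D + e : ℕ) : ℝ) - k) = ((D : ℝ) + e + i + 1 / 2 - k) * (Qi D e i).eval (k : ℝ) := by
  unfold W Qi
  rw [← Finset.mul_prod_erase _ _ (Finset.mem_range.mpr hi), eval_prod]
  congr 1
  · push_cast; ring
  · apply Finset.prod_congr rfl
    intro l _
    simp only [eval_sub, eval_C, eval_X]
    push_cast
    ring

lemma Qi_at {n D e i : ℕ} (hn : n = 2 * D + e) (hi : i < D) :
    (Qi D e i).eval ((n : ℝ) + 1) * ((D : ℝ) - i + 1 / 2) = (-1) ^ (D - 1) * Wt D := by
  unfold Wt Qi
  rw [← Finset.mul_prod_erase _ _ (Finset.mem_range.mpr hi), eval_prod]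
  have h1 : ∏ l ∈ (Finset.range D).erase i, (C ((D : ℝ) + e + l + 1 / 2) - X).eval ((n : ℝ) + 1) =
      ∏ l ∈ (Finset.range D).erase i, (-1 * ((D : ℝ) - l + 1 / 2)) := by
    apply Finset.prod_congr rfl
    intro l _
    simp only [eval_sub, eval_C, eval_X]
    rw [hn]
    push_cast
    ring
  rw [h1, Finset.prod_mul_distrib, Finset.prod_const, Finset.card_erase_of_mem
    (Finset.mem_range.mpr hi), Finset.card_range]
  ring

lemma L_X_pow {n D e i : ℕ} (hn : n = 2 * D + e) (he : e ≤ 1) (hi : i < D) :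
    L n D e (X ^ i) = -kap n D e * (1 / (2 * ((D : ℝ) - i) + 1)) := by
  have hD : 0 < D := by omega
  have h1 : (X ^ (2 * e) * (A n D * X ^ i).comp (X ^ 2) : ℝ[X]) =
      ∑ k ∈ Finset.range (D + 1), C ((-1) ^ k * cf n 0 k) * X ^ (2 * e + 2 * (D - k) + 2 * i) := by
    unfold A
    rw [mul_comp, Polynomial.sum_comp, Finset.sum_mul, Finset.mul_sum]
    apply Finset.sum_congr rfl
    intro k _
    simp only [mul_comp, C_comp, pow_comp, X_comp]
    rw [pow_add, pow_add, ← pow_mul, ← pow_mul]
    ring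
  unfold L
  rw [h1, I_sum]
  set K : ℝ := (1 + e) * 4 ^ D / D.factorial with hK
  have h2 : ∀ k ∈ Finset.range (D + 1),
      I (C ((-1) ^ k * cf n 0 k) * X ^ (2 * e + 2 * (D - k) + 2 * i)) =
        K / 2 * ((-1 : ℝ) ^ k * (D.choose k : ℝ) *
          ((Qi D e i).eval (k : ℝ) / (((n : ℝ) + 1) - k))) := by
    intro k hk
    rw [Finset.mem_range] at hk
    have hkD : k ≤ D := by omega
    rw [I_C_mul, I_X_pow, cf_formula hn he (Nat.zero_le D) hkD]
    rw [Nat.sub_zero, ← hK, W_eq_Qi hi]
    have e1 : n - k - 0 + 1 = (n - k) + 1 := by omega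
    rw [e1, Nat.factorial_succ]
    have e2 : ((n - k : ℕ) : ℝ) = (n : ℝ) - k := by rw [Nat.cast_sub (by omega)]
    have e3 : ((2 * e + 2 * (D - k) + 2 * i : ℕ) : ℝ) = 2 * e + 2 * ((D : ℝ) - k) + 2 * i := by
      push_cast
      rw [Nat.cast_sub hkD]
    rw [e3]
    push_cast
    rw [e2]
    have f1 : (((n - k).factorial : ℕ) : ℝ) ≠ 0 := by exact_mod_cast Nat.factorial_ne_zero _
    have hk' : (k : ℝ) ≤ D := by exact_mod_cast hkD
    have hn' : (n : ℝ) = 2 * D + e := by rw [hn]; push_cast; ring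
    have he' : (0 : ℝ) ≤ e := by positivity
    have hi' : (0 : ℝ) ≤ i := by positivity
    have hD' : (0 : ℝ) ≤ D := by positivity
    have g1 : (n : ℝ) - k + 1 ≠ 0 := by
      rw [hn']
      have : 0 < 2 * (D : ℝ) + e - k + 1 := by linarith
      exact this.ne'
    have g1' : (n : ℝ) + 1 - k ≠ 0 := by
      intro h
      apply g1
      linarith
    have g2 : 2 * (e : ℝ) + 2 * ((D : ℝ) - k) + 2 * i + 1 ≠ 0 := by
      have : 0 < 2 * (e : ℝ) + 2 * ((D : ℝ) - k) + 2 * i + 1 := by linarith
      exact this.ne'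
    have g3 : (n : ℝ) - k + 1 = (n : ℝ) + 1 - k := by ring
    have g4 : 2 * (e : ℝ) + 2 * ((D : ℝ) - k) + 2 * i + 1 = 2 * ((D : ℝ) + e + i + 1 / 2 - k) := by
      ring
    rw [g4] at g2
    have g5 : ((D : ℝ) + e + i + 1 / 2 - k) ≠ 0 := right_ne_zero_of_mul g2
    rw [g3, g4]
    generalize ((D : ℝ) + e + i + 1 / 2 - k) = u at g5
    field_simp
  rw [Finset.sum_congr rfl h2, ← Finset.mul_sum]
  have hr : ∀ k ∈ Finset.range (D + 1), ((n : ℝ) + 1) - (k : ℝ) ≠ 0 := by
    intro k hk
    rw [Finset.mem_range] at hk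
    have hk' : (k : ℝ) < D + 1 := by exact_mod_cast hk
    have hn' : (n : ℝ) = 2 * D + e := by rw [hn]; push_cast; ring
    have he' : (0 : ℝ) ≤ e := by positivity
    have hD' : (0 : ℝ) ≤ D := by positivity
    have : 0 < ((n : ℝ) + 1) - (k : ℝ) := by rw [hn']; linarith
    exact this.ne'
  rw [alt_sum_div hD natDegree_Qi hr, beta_eq (by omega : D ≤ n)]
  have h3 := Qi_at hn hi
  have hi' : (i : ℝ) < D := by exact_mod_cast hi
  have g0 : ((D : ℝ) - i + 1 / 2) ≠ 0 := by
    have : 0 < ((D : ℝ) - i + 1 / 2) := by linarith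
    exact this.ne'
  have h4 : (Qi D e i).eval ((n : ℝ) + 1) = (-1) ^ (D - 1) * Wt D / ((D : ℝ) - i + 1 / 2) := by
    rw [eq_div_iff g0]
    exact h3
  rw [h4]
  have h5 : (-1 : ℝ) ^ D = - (-1) ^ (D - 1) := by
    have : D = (D - 1) + 1 := by omega
    rw [this, pow_succ]
    simp
  have h6 : (-1 : ℝ) ^ (D - 1) * (-1) ^ (D - 1) = 1 := by
    rw [← mul_pow]
    simp
  have g4 : 2 * ((D : ℝ) - i) + 1 ≠ 0 := by
    have : 0 < 2 * ((D : ℝ) - i) + 1 := by linarith
    exact this.ne'
  unfold kap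
  rw [h5, ← hK]
  have g5 : ((D : ℝ) - i + 1 / 2) = (2 * ((D : ℝ) - i) + 1) / 2 := by ring
  rw [g5]
  field_simp
  linear_combination (-K * Wt D * I (X ^ (n - D) * (1 - X) ^ D)) * h6

/-- `∑ q_i X ^ {2 (D - i)}`, i.e. `t ^ {2 D} q (t ^ {-2})` -/
noncomputable def Rq (D : ℕ) (q : ℝ[X]) : ℝ[X] :=
  ∑ i ∈ Finset.range D, C (q.coeff i) * X ^ (2 * (D - i))

lemma L_eq {n D e : ℕ} (hn : n = 2 * D + e) (he : e ≤ 1) {q : ℝ[X]} (hq : q.natDegree < D) :
    L n D e q = -kap n D e * I (Rq D q) := by
  have h1 : L n D e q = ∑ i ∈ Finset.range D, q.coeff i * L n D e (X ^ i) := by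
    conv_lhs => rw [q.as_sum_range' D hq]
    unfold L
    rw [Finset.mul_sum, Polynomial.sum_comp, Finset.mul_sum, I_sum]
    apply Finset.sum_congr rfl
    intro i _
    rw [← I_C_mul]
    congr 1
    rw [← C_mul_X_pow_eq_monomial]
    simp only [mul_comp, C_comp]
    ring
  rw [h1]
  unfold Rq
  rw [I_sum, Finset.mul_sum]
  apply Finset.sum_congr rfl
  intro i hi
  rw [Finset.mem_range] at hi
  rw [L_X_pow hn he hi, I_C_mul, I_X_pow]
  push_cast
  rw [Nat.cast_sub hi.le]
  ring

lemma Rq_eval {D : ℕ} {q : ℝ[X]} (hq : q.natDegree < D) {t : ℝ} (ht : t ≠ 0) :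
    (Rq D q).eval t = t ^ (2 * D) * q.eval ((t⁻¹) ^ 2) := by
  conv_rhs => rw [q.as_sum_range' D hq]
  unfold Rq
  rw [eval_finsetSum, eval_finsetSum, Finset.mul_sum]
  apply Finset.sum_congr rfl
  intro i hi
  rw [Finset.mem_range] at hi
  simp only [eval_mul, eval_C, eval_pow, eval_X, eval_monomial]
  have : t ^ (2 * D) = t ^ (2 * (D - i)) * t ^ (2 * i) := by
    rw [← pow_add]
    congr 1
    omega
  rw [this, ← pow_mul, inv_pow]
  have h1 : t ^ (2 * i) ≠ 0 := pow_ne_zero _ ht
  field_simp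

lemma L_neg {n D e : ℕ} (hn : n = 2 * D + e) (he : e ≤ 1) {q : ℝ[X]} (hq : q.natDegree < D)
    (hpos : ∀ s : ℝ, 1 < s → 0 < q.eval s) : L n D e q < 0 := by
  rw [L_eq hn he hq]
  have h1 : 0 < I (Rq D q) := by
    apply I_pos
    intro t ht
    rw [Rq_eval hq ht.1.ne']
    have h2 : 1 < (t⁻¹) ^ 2 := by
      have : 1 < t⁻¹ := (one_lt_inv₀ ht.1).mpr ht.2
      nlinarith
    have h3 := hpos _ h2
    have h4 := ht.1
    positivity
  have h2 := kap_pos n D e
  have := mul_pos h2 h1
  linarith

/-! ### Factoring out the roots in `(0, 1)` -/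

lemma exists_factor (d : ℕ) : ∀ P : ℝ[X], P ≠ 0 → P.natDegree ≤ d →
    ∃ g h : ℝ[X], P = g * h ∧ (∀ s : ℝ, 1 ≤ s → 0 < g.eval s) ∧
      (∀ z : ℂ, aeval z g = 0 → z.im = 0) ∧ (∀ t ∈ Set.Ioo (0 : ℝ) 1, h.eval t ≠ 0) := by
  induction d with
  | zero =>
    intro P hP hd
    refine ⟨1, P, by simp, by simp, by simp, ?_⟩
    intro t _ h0
    have h1 := eq_C_of_natDegree_le_zero hd
    rw [h1] at h0 hP
    simp only [eval_C] at h0
    rw [h0] at hP
    simp at hP
  | succ d ih =>
    intro P hP hd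
    by_cases h : ∃ t ∈ Set.Ioo (0 : ℝ) 1, P.eval t = 0
    · obtain ⟨t, ht, h0⟩ := h
      obtain ⟨P', hP'⟩ := dvd_iff_isRoot.mpr h0
      have hP'0 : P' ≠ 0 := by
        rintro rfl
        apply hP
        rw [hP', mul_zero]
      have hdeg : P'.natDegree ≤ d := by
        have h1 : P.natDegree = 1 + P'.natDegree := by
          rw [hP', natDegree_mul (X_sub_C_ne_zero t) hP'0, natDegree_X_sub_C]
        omega
      obtain ⟨g, h, h1, h2, h3, h4⟩ := ih P' hP'0 hdeg
      refine ⟨(X - C t) * g, h, by rw [hP', h1, mul_assoc], ?_, ?_, h4⟩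
      · intro s hs
        simp only [eval_mul, eval_sub, eval_X, eval_C]
        exact mul_pos (by linarith [ht.2]) (h2 s hs)
      · intro z hz
        simp only [map_mul, map_sub, aeval_X, aeval_C, mul_eq_zero] at hz
        rcases hz with hz | hz
        · have : z = (algebraMap ℝ ℂ) t := by linear_combination hz
          rw [this]
          simp
        · exact h3 z hz
    · push Not at h
      exact ⟨1, P, by simp, by simp, by simp, h⟩

lemma const_sign {h : ℝ[X]} (hn : ∀ t ∈ Set.Ioo (0 : ℝ) 1, h.eval t ≠ 0) :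
    (∀ t ∈ Set.Ioo (0 : ℝ) 1, 0 < h.eval t) ∨ (∀ t ∈ Set.Ioo (0 : ℝ) 1, h.eval t < 0) := by
  by_contra hcon
  push Not at hcon
  obtain ⟨⟨a, ha, ha0⟩, b, hb, hb0⟩ := hcon
  have := isPreconnected_Ioo.intermediate_value ha hb (h.continuous.continuousOn (s := Set.Ioo 0 1))
  obtain ⟨c, hc, hc0⟩ := this ⟨ha0, hb0⟩
  exact hn c hc hc0

lemma coeff_A_top (n D : ℕ) : (A n D).coeff D = cf n 0 0 := by
  unfold A
  rw [finsetSum_coeff, Finset.sum_eq_single 0]
  · simp
  · intro k hk hk0
    rw [Finset.mem_range] at hk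
    rw [coeff_C_mul, coeff_X_pow, if_neg (by omega), mul_zero]
  · simp

lemma natDegree_A {n D : ℕ} : (A n D).natDegree = D := by
  apply le_antisymm
  · unfold A
    apply natDegree_sum_le_of_forall_le
    intro k _
    refine (natDegree_C_mul_X_pow_le _ _).trans ?_
    omega
  · apply le_natDegree_of_ne_zero
    rw [coeff_A_top]
    exact (cf_pos (Nat.zero_le _)).ne'

lemma roots_A {n D e : ℕ} (hn : n = 2 * D + e) (he : e ≤ 1) :
    ∀ z : ℂ, aeval z (A n D) = 0 → z.im = 0 := by
  have hdeg : (A n D).natDegree = D := natDegree_A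
  have hA : A n D ≠ 0 := by
    intro h0
    have h1 := coeff_A_top n D
    rw [h0, coeff_zero] at h1
    exact (cf_pos (n := n) (j := 0) (Nat.zero_le _)).ne h1
  obtain ⟨g, h, hgh, hg1, hg2, hh⟩ := exists_factor _ (A n D) hA le_rfl
  have hg0 : g ≠ 0 := by
    rintro rfl
    have := hg1 1 le_rfl
    simp at this
  have hh0 : h ≠ 0 := by
    rintro rfl
    apply hA
    rw [hgh, mul_zero]
  have hdd : g.natDegree + h.natDegree = D := by
    rw [← natDegree_mul hg0 hh0, ← hgh, hdeg]
  have hdh : h.natDegree ≤ 1 := by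
    by_contra hcon
    push Not at hcon
    rcases const_sign hh with hs | hs
    · have h1 := L_neg hn he (q := g) (by omega) (fun s hs => hg1 s hs.le)
      have h2 : 0 ≤ L n D e g := by
        unfold L
        apply I_nonneg
        intro t ht
        rw [hgh]
        simp only [eval_mul, eval_pow, eval_X, eval_comp]
        have ht2 : t ^ 2 ∈ Set.Ioo (0 : ℝ) 1 := by
          have h3 := ht.1
          have h4 := ht.2
          constructor
          · positivity
          · nlinarith
        have h5 := hs _ ht2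
        have h6 := ht.1
        have : t ^ (2 * e) * (eval (t ^ 2) g * eval (t ^ 2) h * eval (t ^ 2) g) =
            t ^ (2 * e) * (eval (t ^ 2) g) ^ 2 * eval (t ^ 2) h := by ring
        rw [this]
        positivity
      linarith
    · have hq : (g * (X - 1)).natDegree < D := by
        have h1 : (X - 1 : ℝ[X]) = X - C 1 := by simp
        rw [natDegree_mul hg0 (by rw [h1]; exact X_sub_C_ne_zero 1), h1, natDegree_X_sub_C]
        omega
      have h1 := L_neg hn he hq (by
        intro s hs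
        simp only [eval_mul, eval_sub, eval_X, eval_one]
        exact mul_pos (hg1 s hs.le) (by linarith))
      have h2 : 0 ≤ L n D e (g * (X - 1)) := by
        unfold L
        apply I_nonneg
        intro t ht
        rw [hgh]
        simp only [eval_mul, eval_pow, eval_X, eval_comp, eval_sub, eval_one]
        have ht2 : t ^ 2 ∈ Set.Ioo (0 : ℝ) 1 := by
          have h3 := ht.1
          have h4 := ht.2
          constructor
          · positivity
          · nlinarith
        have h5 : 0 < - eval (t ^ 2) h := by linarith [hs _ ht2]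
        have h6 := ht.1
        have h7 : 0 < 1 - t ^ 2 := by linarith [ht2.2]
        have : t ^ (2 * e) * (eval (t ^ 2) g * eval (t ^ 2) h * (eval (t ^ 2) g * (t ^ 2 - 1))) =
            t ^ (2 * e) * (eval (t ^ 2) g) ^ 2 * (- eval (t ^ 2) h) * (1 - t ^ 2) := by ring
        rw [this]
        positivity
      linarith
  intro z hz
  rw [hgh, map_mul, mul_eq_zero] at hz
  rcases hz with hz | hz
  · exact hg2 z hz
  · have h1 := exists_eq_X_add_C_of_natDegree_le_one hdh
    obtain ⟨a, b, hab⟩ := h1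
    rw [hab] at hz
    simp only [map_add, map_mul, aeval_C, aeval_X] at hz
    by_cases ha : a = 0
    · exfalso
      rw [ha] at hz
      simp only [map_zero, zero_mul, zero_add, map_eq_zero] at hz
      apply hh0
      rw [hab, ha, hz]
      simp
    · have him := congrArg Complex.im hz
      simp at him
      rcases him with him | him
      · exact absurd him ha
      · exact him

lemma aeval_A {n D : ℕ} (hD : D = n / 2) {y : ℂ} (hy : y ≠ 0) :
    aeval (-y⁻¹) (A n D) * (-y) ^ D = aeval y (G n 0) := by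
  unfold A G
  rw [← hD, map_sum, map_sum, Finset.sum_mul]
  apply Finset.sum_congr rfl
  intro k hk
  rw [Finset.mem_range] at hk
  simp only [map_mul, aeval_C, map_pow, aeval_X, map_neg, map_one]
  have h1 : (-y) ^ D = (-y) ^ (D - k) * (-y) ^ k := by
    rw [← pow_add]
    congr 1
    omega
  have h2 : (-y⁻¹) ^ (D - k) * (-y) ^ (D - k) = 1 := by
    rw [← mul_pow]
    have : -y⁻¹ * -y = 1 := by
      field_simp
    rw [this, one_pow]
  have h3 : (-1 : ℂ) ^ k * (-y) ^ k = y ^ k := by
    rw [← mul_pow]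
    simp
  rw [h1]
  calc (-1 : ℂ) ^ k * (algebraMap ℝ ℂ) (cf n 0 k) * (-y⁻¹) ^ (D - k) *
        ((-y) ^ (D - k) * (-y) ^ k)
      = (algebraMap ℝ ℂ) (cf n 0 k) * ((-y⁻¹) ^ (D - k) * (-y) ^ (D - k)) *
        ((-1 : ℂ) ^ k * (-y) ^ k) := by ring
    _ = _ := by rw [h2, h3]; ring

lemma roots_G_zero (n : ℕ) : ∀ z : ℂ, aeval z (G n 0) = 0 → z.im = 0 := by
  obtain ⟨D, e, he, hn⟩ : ∃ D e, e ≤ 1 ∧ n = 2 * D + e := ⟨n / 2, n % 2, by omega, by omega⟩
  have hD : D = n / 2 := by omega
  intro z hz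
  have hz0 : z ≠ 0 := by
    rintro rfl
    have h1 := G_eval_zero_pos n 0
    have h4 : aeval (0 : ℂ) (G n 0) = (((G n 0).eval 0 : ℝ) : ℂ) := by
      have := aeval_algebraMap_apply ℂ (0 : ℝ) (G n 0)
      rw [map_zero] at this
      rw [this]
      rfl
    rw [h4] at hz
    have : (G n 0).eval 0 = 0 := by exact_mod_cast hz
    exact h1.ne' this
  rw [← aeval_A hD hz0, mul_eq_zero] at hz
  rcases hz with hz | hz
  · have h1 := roots_A hn he _ hz
    have h2 : z = -(-z⁻¹)⁻¹ := by
      field_simp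
    rw [h2, Complex.neg_im, Complex.inv_im, h1]
    simp
  · exfalso
    exact pow_ne_zero D (neg_ne_zero.mpr hz0) hz

/-- **Main theorem.** For all `n ≥ 1` and `0 ≤ j ≤ ⌊n/2⌋` the polynomial `g_{n,j}` is
real-rooted. -/
theorem result (n j : ℕ) (_hn : 1 ≤ n) (hj : j ≤ n / 2) : RealRooted (g n j) := by
  apply realRooted_of_G hj
  rcases Nat.eq_zero_or_pos j with rfl | hj1
  · exact roots_G_zero n
  · exact roots_G_pos hj1 hj

end Pool.Agent.Results.MP_141d57_co.ToricContribution
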